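import Mathlib

set_option autoImplicit false

namespace Pool.Agent.Results.MP_472c23_co.Counter

open Polynomial

/-- the rational function `1 - q^k` -/
noncomputable def f (k : ℕ) : RatFunc ℚ := 1 - RatFunc.X ^ k

/-- `[m]! = (1-q)(1-q^2)⋯(1-q^m)` -/
noncomputable def qf (m : ℕ) : RatFunc ℚ := ∏ i ∈ Finset.range m, f (i + 1)

noncomputable def F (n : ℕ) : RatFunc ℚ := qf (6 * n) * qf n / (qf (3 * n) * qf (2 * n) ^ 2)

noncomputable def P1 (n : ℕ) : RatFunc ℚ := f 1 / f (2 * n + 1) * F n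
noncomputable def P2 (n : ℕ) : RatFunc ℚ := f 3 / f (2 * n + 3) * F n
noncomputable def P3 (n : ℕ) : RatFunc ℚ := f 1 * f 3 / (f (2 * n + 1) * f (2 * n + 3)) * F n
noncomputable def P4 (n : ℕ) : RatFunc ℚ :=
  f 3 * f 5 * f 7 / (f (2 * n + 3) * f (2 * n + 5) * f (2 * n + 7)) * F n
noncomputable def P5 (n : ℕ) : RatFunc ℚ :=
  f 3 ^ 2 * f 5 * f 7 / (f (2 * n + 1) * f (2 * n + 3) * f (2 * n + 5) * f (2 * n + 7)) * F n

/-- `r` is a polynomial in `q` (with rational coefficients) -/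
def IsPoly (r : RatFunc ℚ) : Prop :=
  ∃ p : ℚ[X], r = algebraMap ℚ[X] (RatFunc ℚ) p

/-- `r` is a polynomial in `q` with non-negative integer coefficients -/
def IsNatPoly (r : RatFunc ℚ) : Prop :=
  ∃ p : ℤ[X], (∀ i, 0 ≤ p.coeff i) ∧
    r = algebraMap ℚ[X] (RatFunc ℚ) (p.map (Int.castRingHom ℚ))

noncomputable def φ : ℤ[X] →+* RatFunc ℚ :=
  (algebraMap ℚ[X] (RatFunc ℚ)).comp (Polynomial.mapRingHom (Int.castRingHom ℚ))

lemma φ_inj : Function.Injective φ :=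
  (IsFractionRing.injective ℚ[X] (RatFunc ℚ)).comp
    (Polynomial.map_injective _ (RingHom.injective_int (Int.castRingHom ℚ)))

noncomputable def g (k : ℕ) : ℤ[X] := 1 - X ^ k
noncomputable def qg (m : ℕ) : ℤ[X] := ∏ i ∈ Finset.range m, g (i + 1)

lemma f_eq (k : ℕ) : f k = φ (g k) := by
  simp [f, g, φ]

lemma qf_eq (m : ℕ) : qf m = φ (qg m) := by
  simp [qf, qg, f_eq, map_prod]

def e (k : ℕ) : ℤ := 1 - 2 ^ k
def qe (m : ℕ) : ℤ := ∏ i ∈ Finset.range m, e (i + 1)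

lemma g_ev (k : ℕ) : (g k).eval 2 = e k := by simp [g, e]
lemma qg_ev (m : ℕ) : (qg m).eval 2 = qe m := by simp [qg, qe, eval_prod, g_ev]

lemma g_ev0 (k : ℕ) (hk : k ≠ 0) : (g k).eval 0 = 1 := by simp [g, hk]
lemma qg_ev0 (m : ℕ) : (qg m).eval 0 = 1 := by
  simp [qg, eval_prod, g_ev0]

lemma main (a b c d : ℤ[X]) (h : ¬ (b * d).eval 2 ∣ (a * c).eval 2) (h0 : (b * d).eval 0 = 1) :
    ¬ IsPoly (φ a / φ b * (φ c / φ d)) := by
  rintro ⟨p, hp⟩
  have hbd : φ (b * d) ≠ 0 := by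
    intro h1
    have : b * d = 0 := φ_inj (by rw [h1, map_zero])
    rw [this] at h0
    simp at h0
  have hp' : φ (a * c) / φ (b * d) = algebraMap ℚ[X] (RatFunc ℚ) p := by
    rw [map_mul, map_mul, ← div_mul_div_comm]; exact hp
  rw [div_eq_iff hbd] at hp'
  have h2 : (a * c).map (Int.castRingHom ℚ) = p * (b * d).map (Int.castRingHom ℚ) := by
    apply IsFractionRing.injective ℚ[X] (RatFunc ℚ)
    rw [map_mul]
    exact hp'
  have hprim : (b * d).IsPrimitive := by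
    rintro r ⟨s, hs⟩
    rw [hs, eval_mul, eval_C] at h0
    exact IsUnit.of_mul_eq_one _ h0
  have h3 : b * d ∣ a * c :=
    (IsPrimitive.Int.dvd_iff_map_cast_dvd_map_cast _ _ hprim).2 ⟨p, by rw [h2, mul_comm]⟩
  exact h (Polynomial.eval_dvd h3)

lemma not4 : ¬ IsPoly (P4 10) := by
  have := main (g 3 * g 5 * g 7) (g 23 * g 25 * g 27) (qg 60 * qg 10) (qg 30 * qg 20 ^ 2)
    (by simp only [eval_mul, eval_pow, g_ev, qg_ev]; decide +kernel)
    (by simp [eval_mul, eval_pow, g_ev0, qg_ev0])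
  simp only [map_mul, map_pow, ← f_eq, ← qf_eq] at this
  exact this

lemma not5 : ¬ IsPoly (P5 10) := by
  have := main (g 3 ^ 2 * g 5 * g 7) (g 21 * g 23 * g 25 * g 27) (qg 60 * qg 10)
    (qg 30 * qg 20 ^ 2)
    (by simp only [eval_mul, eval_pow, g_ev, qg_ev]; decide +kernel)
    (by simp [eval_mul, eval_pow, g_ev0, qg_ev0])
  simp only [map_mul, map_pow, ← f_eq, ← qf_eq] at this
  exact this

theorem result :
    (¬ ((∀ n : ℕ, 1 ≤ n → IsNatPoly (P1 n) ∧ IsNatPoly (P2 n) ∧ IsNatPoly (P3 n)) ∧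
        (∀ n : ℕ, 2 ≤ n → IsNatPoly (P4 n) ∧ IsNatPoly (P5 n)))) ∧
      ¬ IsPoly (P4 10) ∧ ¬ IsPoly (P5 10) := by
  refine ⟨?_, not4, not5⟩
  rintro ⟨-, h⟩
  obtain ⟨p, -, hp⟩ := (h 10 (by norm_num)).1
  exact not4 ⟨_, hp⟩

end Pool.Agent.Results.MP_472c23_co.Counter
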